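import Pool.Agent.Helper19.TGX.Goals

/-!
# Project TGX (MP_a41896_nt), packet PTS: points and their coordinates
-/

set_option autoImplicit false

open Polynomial

namespace Pool.Agent.Helper8.TGX.PTS

open WeierstrassCurve
open Pool.Agent.Helper29.BL Pool.Agent.Helper42.SG

theorem t : Pool.Agent.Helper19.TGX.PTS := by
  intro F _ _ _ W hW
  have h2 : (2 : F) ≠ 0 := two_ne_zero
  refine ⟨?_, ?_, ?_⟩
  · intro x ψ h
    have hy : 2 * ((ψ - W.a₁ * x - W.a₃) / 2) + W.a₁ * x + W.a₃ = ψ := by
      rw [mul_div_cancel₀ _ h2]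
      ring
    set y := (ψ - W.a₁ * x - W.a₃) / 2 with hyd
    have heq : W.Equation x y := by
      rw [Affine.equation_iff]
      have h4 : (4 : F) ≠ 0 := by norm_num
      refine mul_left_cancel₀ h4 ?_
      simp only [Bf, WeierstrassCurve.b₂, WeierstrassCurve.b₄, WeierstrassCurve.b₆] at h
      rw [← hy] at h
      linear_combination h
    have hns : W.Nonsingular x y := Affine.equation_iff_nonsingular.mp heq
    exact ⟨Affine.Point.some x y hns, Affine.Point.some_ne_zero hns, rfl, hy⟩
  · intro P Q hP hQ hx hp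
    rcases P with _ | ⟨x, y, h⟩
    · exact absurd rfl hP
    rcases Q with _ | ⟨x', y', h'⟩
    · exact absurd rfl hQ
    have hx' : x = x' := hx
    subst hx'
    have hp' : 2 * y + W.a₁ * x + W.a₃ = 2 * y' + W.a₁ * x + W.a₃ := hp
    have hy : y = y' := by
      refine mul_left_cancel₀ h2 ?_
      linear_combination hp'
    subst hy
    rfl
  · intro P
    rcases P with _ | ⟨x, y, h⟩
    · have h0 : -(Affine.Point.zero : W.Point) = 0 := neg_zero
      rw [h0]
      exact ⟨rfl, (neg_zero (G := F)).symm⟩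
    · rw [Affine.Point.neg_some]
      refine ⟨rfl, ?_⟩
      show 2 * W.negY x y + W.a₁ * x + W.a₃ = -(2 * y + W.a₁ * x + W.a₃)
      rw [Affine.negY]
      ring

end Pool.Agent.Helper8.TGX.PTS
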